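import Mathlib

set_option autoImplicit false
open Set Filter Topology

namespace Pool.Agent.H.MP_5155e4

variable {B : Type} {d : B → Finset (B × ℕ) × (ℕ → Finset (B × ℕ))} {n : Set (B × ℕ)} {γ : B}

variable (d) in
def val (γ : B) : Prop := ∀ β, ∀ᶠ k in atTop, ∀ j, (β, j) ∈ (d γ).2 k ↔ (β, j) ∈ (d γ).1

variable (d) in
structure Mem (n : Set (B × ℕ)) : Prop where
  a : ∀ γ i j, i ≤ j → (γ, j) ∈ n → (γ, i) ∈ n
  b : ∀ p ∈ n, val d p.1 ∧ ↑(d p.1).1 ⊆ n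
  c : ∀ p ∈ n, ∀ q ∈ n, p.1 ≠ q.1 → (∃ k ≥ p.2, q ∈ (d p.1).2 k) ∨ ∃ k ≥ q.2, p ∈ (d q.1).2 k
  f : (Prod.fst '' n).Finite

variable (d) in
abbrev X := {x : B × ℕ → Bool // Mem d {p | x p} ∧ ∃ γ, ∀ i, x (γ, i)}

theorem Mem.add (h : Mem d n) (v : val d γ) (r : ↑(d γ).1 ⊆ n) {I : Set ℕ} (l : IsLowerSet I)
    (e : ∀ i ∈ I, ∀ q ∈ n, ∃ k ≥ i, q ∈ (d γ).2 k) : Mem d (n ∪ {γ} ×ˢ I) := by
  refine ⟨?_, ?_, ?_, ?_⟩
  · rintro β i j k (a | a)
    exacts [.inl (h.a _ _ _ k a), .inr ⟨a.1, l k a.2⟩]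
  · rintro ⟨β, i⟩ (a | ⟨rfl, a⟩)
    exacts [(h.b _ a).imp_right (·.trans subset_union_left), ⟨v, r.trans subset_union_left⟩]
  · rintro ⟨β, i⟩ (a | ⟨rfl, a⟩) ⟨β', j⟩ (b | ⟨rfl, b⟩) k
    exacts [h.c _ a _ b k, .inr (e _ b _ a), .inl (e _ a _ b), (k rfl).elim]
  · refine (h.f.insert γ).subset ?_
    rintro _ ⟨p, a | a, rfl⟩
    exacts [.inr ⟨p, a, rfl⟩, .inl a.1]

theorem Mem.top (h : Mem d ↑(d γ).1) (v : val d γ) :
    ∃ x : X d, (∀ p ∈ (d γ).1, x.1 p) ∧ ∀ i, x.1 (γ, i) := by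
  classical
  have := h.add v subset_rfl isLowerSet_univ fun i _ q e =>
    ((eventually_ge_atTop i).and (v q.1)).exists.imp fun k => And.imp_right fun a => (a q.2).2 e
  exact ⟨⟨fun p => decide (p ∈ ↑(d γ).1 ∪ {γ} ×ˢ (univ : Set ℕ)), by
    simp only [decide_eq_true_eq]; exact this, γ, by simp⟩, fun p e => by simp [e], by simp⟩

theorem ev {F : Set (B × ℕ)} (h : F.Finite) : ∀ᶠ N in atTop, ∀ p ∈ F, p.2 < N :=
  h.eventually_all.2 fun _ _ => eventually_gt_atTop _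

theorem key (v : val d γ) (p : B × ℕ) (e : γ ≠ p.1) :
    ∀ᶠ k in atTop, ∀ n, Mem d n → (γ, k) ∈ n → (p ∈ n ↔ p ∈ (d γ).1) := by
  by_cases w : val d p.1
  · obtain ⟨k, hk⟩ := eventually_atTop.1 (w γ)
    obtain ⟨l, hl⟩ := eventually_atTop.1 (v p.1)
    filter_upwards [ev ((d p.1).1.finite_toSet.union ((finite_lt_nat k).biUnion fun j _ =>
      ((d p.1).2 j).finite_toSet)), eventually_ge_atTop l] with i h1 h2 n h a
    refine ⟨fun b => ?_, fun b => (h.b _ a).2 b⟩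
    obtain ⟨j, j1, j2⟩ | ⟨j, -, j2⟩ := h.c _ a _ b e
    · exact (hl j (h2.trans j1) p.2).1 j2
    · exact (lt_irrefl i (h1 (γ, i) ((le_or_gt k j).imp (fun c => (hk j c i).1 j2) fun c =>
        mem_biUnion c j2))).elim
  · exact .of_forall fun k n h a => ⟨fun b => (w (h.b _ b).1).elim, fun b => (h.b _ a).2 b⟩

theorem nh {x : X d} (h : ∀ i, x.1 (γ, i)) : (𝓝 x).HasAntitoneBasis fun k => {y | y.1 (γ, k)} := by
  have m : Antitone fun k => {y : X d | y.1 (γ, k)} := fun i j e y a => y.2.1.a _ _ _ e a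
  convert HasAntitoneBasis.iInf_principal m
  refine le_antisymm (le_iInf fun k => le_principal_iff.2 (IsOpen.mem_nhds (isOpen_discrete
    {true} |>.preimage (f := fun y : X d => y.1 (γ, k)) ((continuous_apply _).comp
      continuous_subtype_val)) (h k))) (tendsto_id'.1
      (tendsto_subtype_rng.2 (tendsto_pi_nhds.2 fun p => tendsto_nhds_of_eventually_eq ?_)))
  by_cases e : γ = p.1
  · subst e
    exact mem_iInf_of_mem p.2 fun y a => Eq.trans a (h p.2).symm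
  · obtain ⟨k, hk⟩ := (key (x.2.1.b (γ, 0) (h 0)).1 p e).exists
    exact mem_iInf_of_mem k fun y a => Bool.eq_iff_iff.2 ((hk _ y.2.1 a).trans (hk _ x.2.1
      (h k)).symm)

theorem trunc (x : X d) {V : Set (X d)} (hV : V ∈ 𝓝 x) {F : Set (B × ℕ)} (hF : F.Finite) :
    ∃ u : Finset (B × ℕ), Mem d ↑u ∧ (∀ p ∈ u, x.1 p) ∧ (∀ p ∈ F, x.1 p → p ∈ u) ∧
      ∀ y : X d, (∀ p ∈ u, y.1 p) → y ∈ V := by
  obtain ⟨h, γ, g⟩ := x.2
  obtain ⟨m, m1, m2⟩ := (((nh g).eventually_subset hV).and (ev (hF.union (h.f.biUnion fun β _ =>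
    (d β).1.finite_toSet)))).exists
  have : ({p | x.1 p} ∩ {p | p.2 ≤ m}).Finite := (h.f.prod (finite_le_nat m)).subset fun p e =>
    And.intro ⟨p, e.1, rfl⟩ e.2
  refine ⟨this.toFinset, ?_, fun p e => (this.mem_toFinset.1 e).1, fun p e a =>
    this.mem_toFinset.2 ⟨a, (m2 p (.inl e)).le⟩, fun y e => m1 (e _ (this.mem_toFinset.2
      ⟨g m, le_refl m⟩))⟩
  rw [this.coe_toFinset]
  exact ⟨fun β i j e a => ⟨h.a _ _ _ e a.1, e.trans a.2⟩, fun p a => ⟨(h.b p a.1).1, fun q b =>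
    ⟨(h.b p a.1).2 b, (m2 q (.inr (mem_biUnion ⟨p, a.1, rfl⟩ b))).le⟩⟩, fun p a q b =>
      h.c p a.1 q b.1, this.image _⟩

theorem osc (hd : d.Surjective) {f : X d → ℝ} (hf : Continuous f) (h : Mem d n) {ε : ℝ}
    (e : 0 < ε) : ∃ T : Set (B × ℕ), T.Finite ∧ ∀ x y : X d, (∀ p ∈ T, x.1 p ↔ p ∈ n) →
      (∀ p ∈ T, y.1 p ↔ p ∈ n) → dist (f x) (f y) ≤ ε := by
  classical
  by_cases t : ∃ γ, ∀ i, (γ, i) ∈ n
  · obtain ⟨γ, t⟩ := t
    let z : X d := ⟨fun p => decide (p ∈ n), by simp only [decide_eq_true_eq]; exact h, γ, by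
      simpa using t⟩
    obtain ⟨k, hk⟩ := ((nh (x := z) (by simpa [z] using t)).eventually_subset
      (hf.tendsto z (Metric.ball_mem_nhds _ (half_pos e)))).exists
    refine ⟨{(γ, k)}, finite_singleton _, fun x y a b => ?_⟩
    have := hk ((a _ rfl).2 (t k))
    have := hk ((b _ rfl).2 (t k))
    have := dist_triangle_right (f x) (f y) (f z)
    simp only [mem_map, mem_preimage, Metric.mem_ball] at *
    linarith
  push Not at t
  choose i hi using t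
  have fi : ∀ T : Set B, T.Finite → {p : B × ℕ | p.1 ∈ T ∧ p.2 ≤ i p.1}.Finite := fun T a =>
    (a.biUnion fun β _ => (finite_singleton β).prod (finite_le_nat (i β))).subset fun p b =>
      mem_biUnion b.1 ⟨rfl, b.2⟩
  have fn : n.Finite := (fi _ h.f).subset fun p a => And.intro ⟨p, a, rfl⟩
    (le_of_not_ge fun b => hi _ (h.a _ _ _ b a))
  by_contra c
  push Not at c
  have st : ∀ a : Set B × X d, a.1.Finite → ∃ b : Set B × X d, b.1.Finite ∧ a.1 ⊆ b.1 ∧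
      Prod.fst '' {p | a.2.1 p} ⊆ b.1 ∧ (∀ β ∈ b.1, ∀ j, b.2.1 (β, j) ↔ (β, j) ∈ n) ∧
        ε / 2 < dist (f b.2) (f a.2) := fun a ha => by
    have hb := ha.union a.2.2.1.f
    obtain ⟨x, y, x1, y1, w⟩ := c _ (fi _ hb)
    have : ∀ x : X d, (∀ p ∈ {p : B × ℕ | p.1 ∈ a.1 ∪ Prod.fst '' {p | a.2.1 p} ∧ p.2 ≤ i p.1},
        x.1 p ↔ p ∈ n) → ∀ β ∈ a.1 ∪ Prod.fst '' {p | a.2.1 p}, ∀ j, x.1 (β, j) ↔ (β, j) ∈ n :=
      fun x k β b j => (le_total j (i β)).elim (fun l => k _ ⟨b, l⟩) fun l => iff_of_false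
        (fun m => hi β ((k _ ⟨b, le_refl _⟩).1 (x.2.1.a _ _ _ l m))) fun m => hi β (h.a _ _ _ l m)
    have tr := dist_triangle_right (f x) (f y) (f a.2)
    by_cases l : ε / 2 < dist (f x) (f a.2)
    · exact ⟨(_, x), hb, subset_union_left, subset_union_right, this x x1, l⟩
    · exact ⟨(_, y), hb, subset_union_left, subset_union_right, this y y1, by
        dsimp only; linarith⟩
  obtain ⟨x0, -⟩ := c ∅ finite_empty
  have : Nonempty (X d) := ⟨x0⟩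
  choose! st s1 s2 s3 s4 s5 using st
  let a : ℕ → Set B × X d := fun k => st^[k] (Prod.fst '' n, x0)
  have a1 : ∀ k, a (k + 1) = st (a k) := fun k => Function.iterate_succ_apply' _ _ _
  have a2 : ∀ k, (a k).1.Finite := fun k => by
    induction k with
    | zero => exact h.f
    | succ k ih => exact a1 k ▸ s1 _ ih
  have a3 : Monotone fun k => (a k).1 := monotone_nat_of_le_succ fun k => a1 k ▸ s2 _ (a2 k)
  have a4 : ∀ k l, k ≤ l + 1 → ∀ β ∈ (a k).1, ∀ j, (a (l + 1)).2.1 (β, j) ↔ (β, j) ∈ n :=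
    fun k l b β w j => a1 l ▸ s4 _ (a2 l) β (a1 l ▸ a3 b w) j
  choose u u1 u2 u3 u4 using fun k => trunc (a (k + 1)).2 (hf.tendsto _ (Metric.ball_mem_nhds _
    (by positivity : 0 < ε / 8))) fn
  obtain ⟨γ, g⟩ := hd (fn.toFinset, u)
  have g1 : ↑(d γ).1 = n := by simp [g]
  have nu : ∀ k, n ⊆ u k := fun k p b => u3 k p b ((a4 0 k (Nat.zero_le _) _ ⟨p, b, rfl⟩ _).2 b)
  have v : val d γ := fun β => by
    simp only [g, Finite.mem_toFinset]
    by_cases w : ∃ k, β ∈ (a k).1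
    · obtain ⟨k, w⟩ := w
      exact (eventually_ge_atTop k).mono fun l b j => ⟨fun m => (a4 k l (b.trans l.le_succ) β w
        j).1 (u2 _ _ m), fun m => nu l m⟩
    · exact .of_forall fun l j => ⟨fun m => (w ⟨l + 2, a1 (l + 1) ▸ s3 _ (a2 _)
        ⟨_, u2 _ _ m, rfl⟩⟩).elim, fun m => nu l m⟩
  obtain ⟨z, -, hz⟩ := Mem.top (g1 ▸ h) v
  have : ∀ k, ∃ y : X d, ∀ p ∈ ↑(u k) ∪ {γ} ×ˢ Iic k, y.1 p := fun k => by
    have l := (u k).finite_toSet.union ((finite_singleton γ).prod (finite_Iic k))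
    obtain ⟨δ, r⟩ := hd (l.toFinset, fun _ => l.toFinset)
    obtain ⟨y, y1, -⟩ := Mem.top (d := d) (γ := δ) (by
      simp only [r, Finite.coe_toFinset]
      exact (u1 k).add v (g1 ▸ nu k) (isLowerSet_Iic k) fun i b q m => ⟨k, b, g ▸ m⟩)
        fun β => by simp [r]
    exact ⟨y, fun p b => y1 p (by rw [r]; exact l.mem_toFinset.2 b)⟩
  choose y hy using this
  obtain ⟨k, hk⟩ := eventually_atTop.1 ((hf.tendsto z).comp ((nh hz).tendsto_right_iff.2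
    fun j _ => (eventually_ge_atTop j).mono fun k b => hy k (γ, j) (.inr ⟨rfl, b⟩))
      (Metric.ball_mem_nhds _ (by positivity : 0 < ε / 8)))
  have := s5 _ (a2 (k + 1))
  rw [← a1] at this
  have := hk k le_rfl
  have := hk (k + 1) k.le_succ
  have := u4 k (y k) fun p b => hy k p (.inl b)
  have := u4 (k + 1) (y (k + 1)) fun p b => hy _ p (.inl b)
  simp only [mem_map, mem_preimage, Metric.mem_ball, Function.comp, Real.dist_eq, abs_lt,
    lt_abs] at *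
  grind

end Pool.Agent.H.MP_5155e4
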