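import Pool.Agent.H.MP_5155e4.A

set_option autoImplicit false
open Set Filter Topology

namespace Pool.Agent.H.MP_5155e4

variable {B : Type} {d : B → Finset (B × ℕ) × (ℕ → Finset (B × ℕ))}

theorem card {ι : Type} {F : Filter ι} [F.NeBot] {S : ι → Set B} {s : Set B} {m : ℕ}
    (h : ∀ᶠ i in F, (S i).encard ≤ m) (k : ∀ β ∈ s, ∀ᶠ i in F, β ∈ S i) : s.encard ≤ m := by
  by_contra c
  obtain ⟨t, t1, t2⟩ := exists_subset_encard_eq (Order.add_one_le_of_lt (not_le.1 c))
  obtain ⟨i, i1, i2⟩ := (h.and ((finite_of_encard_eq_coe (k := m + 1) t2).eventually_all.2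
    fun β b => k β (t1 b))).exists
  have := t2.ge.trans ((encard_le_encard i2).trans i1)
  norm_cast at this
  omega

def sp (x : X d) : Set B := Prod.fst '' {p | x.1 p}

theorem unif (hd : d.Surjective) {f : X d → ℝ} (hf : Continuous f) (m : ℕ) {ε : ℝ} (e : 0 < ε) :
    ∃ (N : ℕ) (T : Set B), T.encard ≤ N ∧ ∀ x : X d, (sp x).encard ≤ m → |f x| ≤ N ∧
      ∀ y : X d, (∀ β ∈ T, ∀ j < N, x.1 (β, j) = y.1 (β, j)) → dist (f x) (f y) ≤ ε := by
  classical
  by_contra c
  have : ∀ i : Finset B × ℕ, ∃ x y : X d, (sp x).encard ≤ m ∧ (∀ β ∈ i.1, ∀ j < i.2,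
      x.1 (β, j) = y.1 (β, j)) ∧ (i.2 < |f x| ∨ ε < dist (f x) (f y)) := fun i => by
    by_contra a
    push Not at a
    refine c ⟨i.2 + i.1.card, i.1, by simp, fun x b => ⟨(a x x b fun _ _ _ _ => rfl).1.trans
      (by simp), fun y k => (a x y b fun β l j r => k β l j (by omega)).2⟩⟩
  choose x y h1 h2 h3 using this
  obtain ⟨U, hU⟩ := Ultrafilter.exists_le (atTop : Filter (Finset B × ℕ))
  have h : Mem d {p | ∀ᶠ i in U, (x i).1 p} :=
    ⟨fun γ i j a b => b.mono fun k => (x k).2.1.a γ i j a, fun p a => ⟨a.exists.elim fun k b =>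
      ((x k).2.1.b p b).1, fun q b => a.mono fun k l => ((x k).2.1.b p l).2 b⟩, fun p a q b =>
        (a.and b).exists.elim fun k l => (x k).2.1.c p l.1 q l.2, finite_of_encard_le_coe
          (card (F := U) (.of_forall h1) fun β ⟨p, a, b⟩ => a.mono fun k l => ⟨p, l, b⟩)⟩
  obtain ⟨T, T1, T2⟩ := osc hd hf h e
  have t : ∀ᶠ i in U, (∀ p ∈ T, (x i).1 p ↔ ∀ᶠ i in U, (x i).1 p) ∧ ∀ p ∈ T, (x i).1 p = (y i).1 p :=
    (T1.eventually_all.2 fun p _ => (em (∀ᶠ i in U, (x i).1 p)).elim (fun a => a.mono fun _ b =>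
      iff_of_true b a) fun a => (Ultrafilter.eventually_not.2 a).mono fun _ b =>
        iff_of_false b a).and (T1.eventually_all.2 fun p _ => hU ((eventually_ge_atTop
          (({p.1} : Finset B), p.2 + 1)).mono fun i a => h2 i _ (a.1 (by simp)) _ a.2))
  obtain ⟨k, k1, -⟩ := t.exists
  obtain ⟨N, hN⟩ := exists_nat_ge (|f (x k)| + ε)
  obtain ⟨i, ⟨i1, i2⟩, i3⟩ := (t.and (hU (eventually_ge_atTop ((∅ : Finset B), N)))).exists
  have := T2 _ _ i1 k1
  have := T2 _ _ i1 fun p a => i2 p a ▸ i1 p a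
  have : (N : ℝ) ≤ i.2 := Nat.cast_le.2 i3.2
  have := abs_sub_abs_le_abs_sub (f (x i)) (f (x k))
  have := h3 i
  simp only [Real.dist_eq] at *
  grind

variable (d) in
def W : Set (((X d → Icc (-2 : ℝ) 2) × (ℕ → B → Bool)) × (ℕ → ℕ)) :=
  {w | ∀ m, {β | w.1.2 m β}.encard ≤ w.2 m ∧ ∀ x : X d, (sp x).encard ≤ m →
    |(w.1.1 x).1| ≤ Real.arctan (w.2 m) ∧ ∀ y : X d, (∀ β, w.1.2 m β → ∀ j < w.2 m,
      x.1 (β, j) = y.1 (β, j)) → dist (w.1.1 x).1 (w.1.1 y).1 ≤ 1 / ((m : ℝ) + 1)}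

theorem clW : IsClosed (W d) := isClosed_of_closure_subset fun w hw m => by
  have := mem_closure_iff_nhdsWithin_neBot.1 hw
  have a : ∀ᶠ v in 𝓝[W d] w, v ∈ W d ∧ v.2 m = w.2 m := eventually_mem_nhdsWithin.and
    (nhdsWithin_le_nhds ((by fun_prop : ContinuousAt (fun v : ((X d → Icc (-2 : ℝ) 2) ×
      (ℕ → B → Bool)) × (ℕ → ℕ) => v.2 m) w).eventually (mem_nhds_discrete.2 (mem_singleton _))))
  have b : ∀ β, ∀ᶠ v in 𝓝[W d] w, v.1.2 m β = w.1.2 m β := fun β =>
    nhdsWithin_le_nhds ((by fun_prop : ContinuousAt (fun v : ((X d → Icc (-2 : ℝ) 2) ×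
      (ℕ → B → Bool)) × (ℕ → ℕ) => v.1.2 m β) w).eventually (mem_nhds_discrete.2 (mem_singleton _)))
  have c : ∀ x, Tendsto (fun v => (v.1.1 x).1) (𝓝[W d] w) (𝓝 (w.1.1 x).1) := fun x =>
    ContinuousAt.continuousWithinAt (by fun_prop)
  refine ⟨card (F := 𝓝[W d] w) (a.mono fun v e => e.2 ▸ (e.1 m).1) fun β e => (b β).mono
    fun v k => k.trans e, fun x e => ⟨le_of_tendsto (c x).abs (a.mono fun v k =>
      k.2 ▸ ((k.1 m).2 x e).1), fun y k => le_of_tendsto ((c x).dist (c y)) ?_⟩⟩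
  filter_upwards [a, (x.2.1.f.union y.2.1.f).eventually_all.2 fun β _ => b β] with v v1 v2
  refine ((v1.1 m).2 x e).2 y fun β l j r => ?_
  by_cases t : β ∈ sp x ∪ sp y
  · exact k β (v2 β t ▸ l) j (v1.2 ▸ r)
  · exact Bool.eq_iff_iff.2 (iff_of_false (fun s => t (.inl ⟨_, s, rfl⟩))
      fun s => t (.inr ⟨_, s, rfl⟩))

theorem inW (w : W d) (x : X d) : (w.1.1.1 x).1 ∈ Ioo (-(Real.pi / 2)) (Real.pi / 2) :=
  abs_lt.1 (((w.2 _).2 x x.2.1.f.cast_ncard_eq.ge).1.trans_lt (Real.arctan_lt_pi_div_two _))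

theorem coW (w : W d) : Continuous fun x => (w.1.1.1 x).1 :=
  continuous_iff_continuousAt.2 fun x => Metric.tendsto_nhds.2 fun ε e => by
    obtain ⟨m, m1, m2⟩ := ((eventually_ge_atTop (sp x).ncard).and
      (tendsto_one_div_add_atTop_nhds_zero_nat.eventually_lt_const e)).exists
    filter_upwards [(finite_of_encard_le_coe (w.2 m).1).eventually_all.2 fun β _ =>
      (finite_lt_nat (w.1.2 m)).eventually_all.2 fun j _ => (((continuous_apply (β, j)).comp
        continuous_subtype_val).tendsto x).eventually (mem_nhds_discrete.2 (mem_singleton _))]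
      with y hy
    exact (dist_comm _ _).trans_lt ((((w.2 m).2 x (x.2.1.f.cast_ncard_eq.ge.trans
      (Nat.cast_le.2 m1))).2 y fun β a j b => (hy β a j b).symm).trans_lt m2)

theorem onto (hd : d.Surjective) : ∃ q : W d → {f : X d → ℝ // Continuous f},
    Continuous q ∧ q.Surjective := by
  classical
  refine ⟨fun w => ⟨fun x => Real.tan (w.1.1.1 x).1, Real.continuousOn_tan_Ioo.comp_continuous
    (coW w) (inW w)⟩, .subtype_mk (continuous_pi fun x => Real.continuousOn_tan_Ioo.comp_continuous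
      (by fun_prop) (inW · x)) _, fun f => ?_⟩
  choose N T h1 h2 using fun m : ℕ => unif hd f.2 m (Nat.one_div_pos_of_nat (n := m))
  have := Real.pi_le_four
  refine ⟨⟨((fun x => ⟨Real.arctan (f.1 x), by linarith [Real.neg_pi_div_two_lt_arctan (f.1 x)],
    by linarith [Real.arctan_lt_pi_div_two (f.1 x)]⟩, fun m β => decide (β ∈ T m)), N), fun m =>
      ⟨by simpa using h1 m, fun x e => ⟨?_, fun y k => ?_⟩⟩⟩, Subtype.ext (funext fun x =>
        Real.tan_arctan _)⟩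
  · have := abs_le.1 (h2 m x e).1
    exact abs_le.2 ⟨(Real.arctan_neg _).symm.trans_le (Real.arctan_mono this.1),
      Real.arctan_mono this.2⟩
  · refine le_trans ?_ ((h2 m x e).2 y fun β a => k β (decide_eq_true a))
    simpa using (lipschitzWith_of_nnnorm_deriv_le (C := 1) Real.differentiable_arctan fun t => by
      rw [Real.deriv_arctan, ← NNReal.coe_le_coe, coe_nnnorm, Real.norm_of_nonneg (by positivity),
        NNReal.coe_one, div_le_one (by positivity)]
      nlinarith [sq_nonneg t]).dist_le_mul (f.1 x) (f.1 y)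

theorem big (hd : d.Surjective) : ∃ g : B → X d, g.Injective := by
  classical
  choose c hc using fun β => hd (∅, fun k => if k = 0 then {(β, 0)} else ∅)
  have : ∀ β, ∃ x : X d, ∀ p, x.1 p ↔ p.1 = c β := fun β => by
    have v : val d (c β) := fun _ => (eventually_ne_atTop 0).mono fun k e => by simp [hc, e]
    refine ⟨⟨fun p => decide (p.1 = c β), ⟨fun _ _ _ _ e => e, fun p e => ?_, fun p a q b e =>
      (e ((of_decide_eq_true a).trans (of_decide_eq_true b).symm)).elim, (finite_singleton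
        (c β)).subset fun _ ⟨p, a, b⟩ => b ▸ of_decide_eq_true a⟩, c β, by simp⟩, by simp⟩
    rw [of_decide_eq_true e]
    exact ⟨v, by simp [hc]⟩
  choose g hg using this
  refine ⟨g, fun a b e => ?_⟩
  have := (hc a).symm.trans ((congrArg d ((hg b (c a, 0)).1 (e ▸ (hg a _).2 rfl))).trans (hc b))
  simpa using congrFun (congrArg Prod.snd this) 0

end Pool.Agent.H.MP_5155e4
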